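import Pool.Agent.H84.NT.Targets5

/-!
# Module O1W (MP_57ddd5_pr, part E5)
-/

open MeasureTheory ProbabilityTheory
open scoped ENNReal

namespace Pool.Agent.H56.NT

open Pool.Agent.H99.NS Pool.Agent.H22.LPP Pool.Agent.H95.INS Pool.Agent.H76.ND Pool.Agent.H95.ND
open Pool.Agent.H84.NT hiding lv two_lv
open Pool.Agent.H84.NT5

/-- The real inequality. -/
theorem real_ineq {sgq l f w τ S Δ K1 Dm : ℝ} (hs : 0 < sgq) (hl : 0 < l) (hf : 0 < f)
    (hw : 0 < w) (hwl : w ^ 2 = l * f) (h0 : 0 ≤ τ) (h1 : τ ≤ 64 * l) (hS : |Δ| ≤ S)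
    (hK : 1 ≤ K1) (hD : 0 ≤ Dm) :
    -(sgq / 2 * S ^ 2 / (τ + 3 / 1000 * l)) + 4 * K1 * f * (1 + (Dm + S) / w) ≤
      -(sgq / 2 * Δ ^ 2 / (τ + l / 200)) +
        (4 + 16900000 / sgq) * K1 ^ 2 * f * (1 + Dm / w) := by
  have hS0 : 0 ≤ S := (abs_nonneg _).trans hS
  have hΔ : Δ ^ 2 ≤ S ^ 2 := by
    rw [← sq_abs Δ]
    exact pow_le_pow_left₀ (abs_nonneg _) hS 2
  have p1 : 0 < τ + 3 / 1000 * l := by positivity
  have p2 : 0 < τ + l / 200 := by positivity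
  obtain ⟨σ, hσ⟩ : ∃ σ, σ = S / w := ⟨_, rfl⟩
  have hSw : S = σ * w := by rw [hσ]; field_simp
  have hσ0 : 0 ≤ σ := by rw [hσ]; positivity
  have hS2 : S ^ 2 = σ ^ 2 * (l * f) := by rw [hSw, mul_pow, hwl]
  -- difference of the two parabolas
  have e1 : sgq / 2 * S ^ 2 / (τ + 3 / 1000 * l) - sgq / 2 * S ^ 2 / (τ + l / 200) =
      sgq / 2 * S ^ 2 * (2 / 1000 * l) / ((τ + 3 / 1000 * l) * (τ + l / 200)) := by
    field_simp
    ring
  have e2 : (τ + 3 / 1000 * l) * (τ + l / 200) ≤ (65 * l) * (65 * l) := by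
    apply mul_le_mul _ _ p2.le (by positivity) <;> linarith
  have e3 : sgq / 2 * S ^ 2 * (2 / 1000 * l) / ((65 * l) * (65 * l)) ≤
      sgq / 2 * S ^ 2 * (2 / 1000 * l) / ((τ + 3 / 1000 * l) * (τ + l / 200)) := by
    apply div_le_div_of_nonneg_left (by positivity) (by positivity) e2
  have e4 : sgq / 2 * S ^ 2 * (2 / 1000 * l) / ((65 * l) * (65 * l)) =
      sgq / 4225000 * σ ^ 2 * f := by
    rw [hS2]
    field_simp
    ring
  have e5 : sgq / 2 * Δ ^ 2 / (τ + l / 200) ≤ sgq / 2 * S ^ 2 / (τ + l / 200) := by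
    apply div_le_div_of_nonneg_right _ p2.le
    apply mul_le_mul_of_nonneg_left hΔ (by positivity)
  have e6 : 4 * K1 * σ ≤ sgq / 4225000 * σ ^ 2 + 16900000 / sgq * K1 ^ 2 := by
    have : 0 ≤ sgq / 4225000 * (σ - 2 * 4225000 * K1 / sgq) ^ 2 := by positivity
    have h : sgq / 4225000 * (σ - 2 * 4225000 * K1 / sgq) ^ 2 =
        sgq / 4225000 * σ ^ 2 - 4 * K1 * σ + 16900000 / sgq * K1 ^ 2 := by
      field_simp
      ring
    linarith
  have e7 : 4 * K1 * f * (1 + (Dm + S) / w) = 4 * K1 * f * (1 + Dm / w) + 4 * K1 * σ * f := by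
    rw [hσ]; field_simp; ring
  have e8 : 4 * K1 * f * (1 + Dm / w) + 16900000 / sgq * K1 ^ 2 * f ≤
      (4 + 16900000 / sgq) * K1 ^ 2 * f * (1 + Dm / w) := by
    have a1 : 4 * K1 * f * (1 + Dm / w) ≤ 4 * K1 ^ 2 * f * (1 + Dm / w) := by
      apply mul_le_mul_of_nonneg_right _ (by positivity)
      apply mul_le_mul_of_nonneg_right _ hf.le
      nlinarith
    have a2 : 16900000 / sgq * K1 ^ 2 * f ≤ 16900000 / sgq * K1 ^ 2 * f * (1 + Dm / w) := by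
      have : 0 ≤ 16900000 / sgq * K1 ^ 2 * f * (Dm / w) := by positivity
      nlinarith
    calc _ ≤ 4 * K1 ^ 2 * f * (1 + Dm / w) + 16900000 / sgq * K1 ^ 2 * f * (1 + Dm / w) :=
          add_le_add a1 a2
      _ = _ := by ring
  have e9 : 4 * K1 * σ * f ≤ sgq / 4225000 * σ ^ 2 * f + 16900000 / sgq * K1 ^ 2 * f := by
    have := mul_le_mul_of_nonneg_right e6 hf.le
    linarith
  rw [e7]
  linarith

theorem pf_O1W : T_O1W := by
  intro q hq0 hq1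
  have hs : 0 < sg q := sg_pos hq0 hq1
  refine ⟨4 + 16900000 / sg q, by positivity, ?_⟩
  intro D a K1 ω ha hK hDq hDn hDw hDf hDK hPB s t g h1 h2 h3 hg hgs hgt
  obtain ⟨b, rfl⟩ : ∃ b, a = b + 1 := ⟨a - 1, by omega⟩
  have hlv : lv (b + 1 + 1) = 256 * D.n := by
    rw [hDn]
    simp only [lv, Nat.add_sub_cancel]
    ring
  obtain ⟨S, hS1, hS2⟩ := hPB s t g (by rw [hlv]; exact h1) h2 (by rw [hlv]; exact h3) hg
  have hnR : (D.n : ℝ) = 8 * 64 ^ b := by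
    rw [hDn]; push_cast; simp
  have hwR : (D.w : ℝ) = 16 ^ (b + 1) := by rw [hDw]; push_cast; rfl
  have hτ0 : (0 : ℝ) ≤ ((t - s : ℤ) : ℝ) := by exact_mod_cast (by omega : (0 : ℤ) ≤ t - s)
  have hτ1 : ((t - s : ℤ) : ℝ) ≤ 64 * 64 ^ (b + 1) := by
    have h : t - s ≤ 512 * D.n := by omega
    have h' : ((t - s : ℤ) : ℝ) ≤ 512 * (D.n : ℝ) := by exact_mod_cast h
    rw [hnR] at h'
    calc _ ≤ _ := h'
      _ = _ := by ring
  have hwl : ((16 : ℝ) ^ (b + 1)) ^ 2 = 64 ^ (b + 1) * 4 ^ (b + 1) := by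
    rw [← mul_pow, ← pow_mul, mul_comm (b + 1) 2, pow_mul]
    norm_num
  have key := real_ineq (sgq := sg q) (l := 64 ^ (b + 1)) (f := 4 ^ (b + 1)) (w := 16 ^ (b + 1))
    (τ := ((t - s : ℤ) : ℝ)) (S := S) (Δ := ((g t - g s : ℤ) : ℝ)) (K1 := K1)
    (Dm := max |(g s : ℝ)| |(g t : ℝ)|) hs (by positivity) (by positivity) (by positivity) hwl
    hτ0 hτ1 hS1 hK (le_max_of_le_left (abs_nonneg _))
  have hW : (fwd ω).W s t g = wt ω s t g := rfl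
  rw [hW] at hS2
  unfold sp
  rw [hDq, hDf, hwR, hnR]
  have hdl : (8 * (8 * 64 ^ b) / 200 : ℝ) = 64 ^ (b + 1) / 200 := by ring
  rw [hdl]
  have hDK' : (4 + 16900000 / sg q) * K1 ^ 2 * 4 ^ (b + 1) *
      (1 + max |(g s : ℝ)| |(g t : ℝ)| / 16 ^ (b + 1)) ≤
      D.K * 4 ^ (b + 1) * (1 + max |(g s : ℝ)| |(g t : ℝ)| / 16 ^ (b + 1)) := by
    have hm : (0 : ℝ) ≤ max |(g s : ℝ)| |(g t : ℝ)| := le_max_of_le_left (abs_nonneg _)
    apply mul_le_mul_of_nonneg_right _ (by positivity)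
    apply mul_le_mul_of_nonneg_right hDK (by positivity)
  linarith

end Pool.Agent.H56.NT
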